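import Mathlib
import Pool.Agent.L0h11.FP.Stm

set_option autoImplicit false

/-! CRD: cardinalities. -/

namespace Pool.Agent.L0h61.FP

open Polynomial Finset
open Pool.Agent.L0h11.FP

theorem card_row (D i : ℕ) : ((range D).filter fun j => i + j < D).card = D - i := by
  have : (range D).filter (fun j => i + j < D) = range (D - i) := by
    ext j
    simp only [mem_filter, mem_range]
    omega
  rw [this, card_range]

theorem card_pairs (e D : ℕ) :
    ((range e ×ˢ range D).filter fun p => p.1 + p.2 < D).card = aa e D := by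
  rw [card_filter, sum_product, aa]
  refine sum_congr rfl fun i _ => ?_
  rw [← card_filter]
  exact card_row D i

theorem aa_eq (e D : ℕ) (h : e ≤ D) : 2 * aa e D + e * (e - 1) = 2 * e * D := by
  rw [← Finset.sum_range_id_mul_two, aa, mul_comm 2, ← add_mul, ← sum_add_distrib]
  have : ∑ i ∈ range e, (D - i + i) = e * D := by
    rw [sum_congr rfl (g := fun _ => D) (fun i hi => by
      have := mem_range.1 hi
      show D - i + i = D
      omega), sum_const, card_range, smul_eq_mul]
  rw [this]
  ring

theorem card_Idx (D : ℕ) : Fintype.card (Idx D) = aa D D := by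
  rw [Fintype.card_subtype, ← card_pairs D D]
  refine card_bij (fun p _ => ((p.1 : ℕ), (p.2 : ℕ))) ?_ ?_ ?_
  · intro p hp
    rw [mem_filter] at hp
    rw [mem_filter, mem_product, mem_range, mem_range]
    exact ⟨⟨p.1.2, p.2.2⟩, hp.2⟩
  · intro p _ q _ h
    have h1 := (Prod.mk.inj h).1
    have h2 := (Prod.mk.inj h).2
    exact Prod.ext (Fin.ext h1) (Fin.ext h2)
  · intro p hp
    rw [mem_filter, mem_product, mem_range, mem_range] at hp
    exact ⟨(⟨p.1, hp.1.1⟩, ⟨p.2, hp.1.2⟩), by
      rw [mem_filter]
      exact ⟨mem_univ _, hp.2⟩, rfl⟩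

theorem CRD : St_CRD := by
  refine ⟨?_, ?_, ?_, ?_, ?_, aa_eq, ?_⟩
  · intro e D
    unfold Ex
    exact card_image_le.trans (card_pairs e D).le
  · intro D
    rw [card_Idx]
    have h := aa_eq D D le_rfl
    rcases D with _ | n
    · simpa using h
    · rw [Nat.add_sub_cancel] at h
      nlinarith
  · intro r m
    rw [Fintype.card_sigma]
    simp only [Fintype.card_fin]
    rw [← mul_sum, Fin.sum_univ_eq_sum_range (fun j => m - j) m]
    have h := aa_eq m m le_rfl
    have h2 : ∑ j ∈ range m, (m - j) = aa m m := rfl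
    rw [h2]
    have h3 : 2 * aa m m = m * (m + 1) := by
      rcases m with _ | n
      · simpa using h
      · rw [Nat.add_sub_cancel] at h
        nlinarith
    rw [← h3]
    ring
  · intro e D
    unfold aa
    calc ∑ i ∈ range e, (D - i) ≤ ∑ i ∈ range e, D := sum_le_sum fun i _ => Nat.sub_le _ _
      _ = e * D := by rw [sum_const, card_range, smul_eq_mul]
  · intro e D
    rw [← Finset.sum_range_id_mul_two, aa, mul_comm 2, mul_comm 2, ← add_mul, ← sum_add_distrib]
    have : e * D ≤ ∑ i ∈ range e, (D - i + i) := by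
      calc e * D = ∑ i ∈ range e, D := by rw [sum_const, card_range, smul_eq_mul]
        _ ≤ _ := sum_le_sum fun i _ => by omega
    calc e * 2 * D = (e * D) * 2 := by ring
      _ ≤ _ := Nat.mul_le_mul_right 2 this
  · intro e D h
    have h1 := aa_eq e D h
    obtain ⟨t, rfl⟩ := Nat.exists_eq_add_of_le h
    rw [Nat.add_sub_cancel_left]
    rcases e with _ | n
    · simp only [zero_add, Nat.zero_sub, mul_zero, zero_mul, add_zero] at h1 ⊢
      have : aa 0 t = 0 := by
        unfold aa
        simp
      rw [this]
      ring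
    · rw [Nat.add_sub_cancel] at h1
      nlinarith

end Pool.Agent.L0h61.FP
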